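import Pool.Agent.D0H13.Tad.Main
import Pool.Agent.Results.MP_34deb4_co.LongTails

/-!
# The SSP tadpoles

For `m ≥ 3`, `n ≥ 1` every matrix of the tadpole `T_{m,n}` has the strong spectral property if and
only if `m ≤ 2 n + 3`.
-/

set_option autoImplicit false

namespace Pool.Agent.Results.MP_34deb4_co.TadpoleClassification

/-- the symmetric matrices of a graph: for `i ≠ j` the entry is nonzero exactly on the edges, the
diagonal is free -/
def InS {V : Type} (G : SimpleGraph V) (A : Matrix V V ℝ) : Prop :=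
  A.IsSymm ∧ ∀ i j, i ≠ j → (A i j ≠ 0 ↔ G.Adj i j)

/-- the strong spectral property -/
def HasSSP {V : Type} [Fintype V] (A : Matrix V V ℝ) : Prop :=
  ∀ X : Matrix V V ℝ, X.IsSymm → (∀ i j, A i j * X i j = 0) → (∀ i, X i i = 0) →
    A * X = X * A → X = 0

/-- SSP graphs: every matrix of the graph has the strong spectral property -/
def IsSSPGraph {V : Type} [Fintype V] (G : SimpleGraph V) : Prop :=
  ∀ A : Matrix V V ℝ, InS G A → HasSSP A

/-- the tadpole `T_{m,n}`: the cycle on `Fin m`, the path on `Fin n` and the bridge joining the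
vertex `0` of the cycle to the end vertex `0` of the path -/
def tadpole (m n : ℕ) : SimpleGraph (Fin m ⊕ Fin n) :=
  SimpleGraph.fromRel fun x y =>
    match x, y with
    | .inl i, .inl j => (i.val + 1) % m = j.val
    | .inr i, .inr j => i.val + 1 = j.val
    | .inl i, .inr j => i.val = 0 ∧ j.val = 0
    | .inr _, .inl _ => False

theorem tadpole_eq (m n : ℕ) : tadpole m n = LongTails.tadpole m n := by
  unfold tadpole LongTails.tadpole
  congr 1

/-- **For `m ≥ 3` and `n ≥ 1` the tadpole `T_{m,n}` is an SSP graph if and only if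
`m ≤ 2 n + 3`.** -/
theorem result : ∀ m n : ℕ, 3 ≤ m → 1 ≤ n → (IsSSPGraph (tadpole m n) ↔ m ≤ 2 * n + 3) := by
  intro m n hm hn
  constructor
  · intro h
    by_contra hmn
    obtain ⟨M, rfl⟩ : ∃ M, m = M + 1 := ⟨m - 1, by omega⟩
    obtain ⟨A, X, hA, hX, hc, hX0, hXd, hAX, h1, h2, h3⟩ :=
      D0H13.Tad.exists_bad n M hn (by omega)
    apply hX0
    refine h A ⟨hA, ?_⟩ X hX hAX hXd hc
    rw [tadpole_eq]
    rintro (i | i) (j | j) hij
    · rw [LongTails.adj_cc hm, h1 i j fun h => hij (by rw [h])]
    · rw [SimpleGraph.adj_comm, LongTails.adj_pc, h3]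
      exact and_comm
    · have e : A (.inr i) (.inl j) = A (.inl j) (.inr i) := hA.apply _ _
      rw [e, LongTails.adj_pc, h3]
      exact and_comm
    · rw [LongTails.adj_pp, h2 i j fun h => hij (by rw [h])]
  · intro hmn A hA X hX hAX hX0 hc
    rw [tadpole_eq] at hA
    exact LongTails.result m n hm hn hmn A hA X hX hAX hX0 hc

end Pool.Agent.Results.MP_34deb4_co.TadpoleClassification
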